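import Pool.Agent.R441.Q4.T

/-!
Lucas sequences `U_n(b,-1)`, `V_n(b,-1)` for `b ≡ 2 (mod 4)` at the index `(p-1)/4`.
-/

set_option autoImplicit false
set_option linter.unusedSimpArgs false
set_option linter.unusedVariables false

namespace Pool.Agent.Results.MP_f2f5f5_nt.LucasQuarterTwo

open Pool.Agent.R441.Q4

/-- For a prime `p ≡ 1 (mod 4)`, `b ≡ 2 (mod 4)`, `p = c² + d² = x² + (1+b²/4)y²`, `p ≠ b²/4 + 1`,
`c ≡ 1 (mod 4)` and the odd parts of `x`, `y` congruent to `1` modulo `4`. -/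
theorem result (p : ℕ) [Fact p.Prime] (hp4 : p % 4 = 1) (b c d x y : ℤ) (hb : b % 4 = 2)
    (hpb : (p : ℤ) ≠ b ^ 2 / 4 + 1)
    (hcd : (p : ℤ) = c ^ 2 + d ^ 2) (hxy : (p : ℤ) = x ^ 2 + (1 + b ^ 2 / 4) * y ^ 2)
    (hc : c % 4 = 1) (hx : OddPart1 x) (hy : OddPart1 y) :
    (x : ZMod p) ≠ 0 ∧ 4 ∣ d ∧ 2 ∣ y ∧
    (y % 4 = 2 → ((LU b ((p - 1) / 4) : ℤ) : ZMod p) = (-1) ^ ((b - 2) / 4 + d / 4) * (y / x)) ∧
    (4 ∣ y → ((LU b ((p - 1) / 4) : ℤ) : ZMod p) = 0) ∧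
    (y % 4 = 2 → ((LV b ((p - 1) / 4) : ℤ) : ZMod p) = 0) ∧
    (4 ∣ y → ((LV b ((p - 1) / 4) : ℤ) : ZMod p) = 2 * (-1) ^ (d / 4 + y / 4)) := by
  have hpp : p.Prime := Fact.out
  have h2 : p ≠ 2 := by omega
  obtain ⟨a, ha⟩ : ∃ a, b = 2 * a := ⟨b / 2, by omega⟩
  have ho : a % 2 = 1 := by omega
  have hb4 : 1 + b ^ 2 / 4 = a ^ 2 + 1 ^ 2 := by
    have : b ^ 2 = 4 * (a ^ 2) := by rw [ha]; ring
    rw [this, Int.mul_ediv_cancel_left _ (by norm_num)]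
    ring
  rw [hb4] at hxy
  rw [add_comm, hb4] at hpb
  have hc2 : c % 2 = 1 := by omega
  have hq : (p - 1) / 4 = p / 4 := by omega
  rw [hq]
  have hcs := sq8_odd hc2
  have hd2 : d % 2 = 0 := by
    by_contra hne
    have := sq8_odd (z := d) (by omega)
    omega
  have hDpos : 0 < a ^ 2 + 1 ^ 2 := by positivity
  have hx0 := x_ne_zero hxy.symm hDpos (Ne.symm hpb)
  have h20 := two_ne h2
  have has := sq8_odd ho
  obtain ⟨t, ht⟩ : ∃ t, a ^ 2 + 1 ^ 2 = 8 * t + 2 := ⟨a ^ 2 / 8, by omega⟩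
  have hx2 : x % 2 = 1 := by
    by_contra hne
    obtain ⟨k, hk⟩ : ∃ k, x = 2 * k := ⟨x / 2, by omega⟩
    have : x ^ 2 + (a ^ 2 + 1 ^ 2) * y ^ 2 = 2 * (2 * k ^ 2 + (4 * t + 1) * y ^ 2) := by
      rw [ht, hk]; ring
    rw [this] at hxy
    omega
  have hxs := sq8_odd hx2
  have hy2 : y % 2 = 0 := by
    by_contra hne
    have e1 := sq8_odd (z := y) (by omega)
    have : (a ^ 2 + 1 ^ 2) * y ^ 2 = 8 * (t * y ^ 2) + 2 * y ^ 2 := by rw [ht]; ring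
    rw [this] at hxy
    omega
  have hd4 : d % 4 = 0 := by
    by_contra hne
    have e1 := sq8_two (z := d) (by omega)
    obtain ⟨k, hk⟩ : ∃ k, y = 2 * k := ⟨y / 2, by omega⟩
    have : (a ^ 2 + 1 ^ 2) * y ^ 2 = 8 * ((4 * t + 1) * k ^ 2) := by rw [ht, hk]; ring
    rw [this] at hxy
    omega
  have hx4 := hx.odd hx2
  have hsg := quarter_sign (F := ZMod p) hcd.symm hc2 hd2
  rw [if_pos hd4] at hsg
  have A0 : ∀ {l : ZMod 4}, _ → _ := fun {l} hl => lucas_main h2 (a := a) (h := 1) (b := b)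
    (Or.inl rfl) (by rw [ha]; ring) hcd.symm hxy.symm hx0 (l := l) hc2 hd2 hl
  have ha4 : a % 4 = 1 ∨ a % 4 = 3 := by omega
  have hb2 : (b - 2) / 4 = (a - 1) / 2 := by omega
  have A1 : y % 4 = 2 → ((LV b (p / 4) : ℤ) : ZMod p) = 0 ∧
      ((LU b (p / 4) : ℤ) : ZMod p) = (-1) ^ ((b - 2) / 4 + d / 4) * (y / x) := by
    intro h
    rw [hb2]
    have F : L ⟨c, d⟩ (((a * y : ℤ) : ZI) + (x : ZI) * im1) = L ⟨c, d⟩ ((1 : ℤ) : ZI) +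
        L ⟨c, d⟩ (y : ZI) + (1 + 2 * ((((a - 1) / 2 + d / 4 : ℤ)) : ZMod 4)) := by
      rcases ha4 with h4 | h4
      · exact chi_od1_y2 hpp h2 h4 hc hd4 hx4 (hy.two h) hcd.symm hxy.symm hpb.symm
      · exact chi_od3_y2 hpp h2 h4 hc hd4 hx4 (hy.two h) hcd.symm hxy.symm hpb.symm
    obtain ⟨g1, g2, g3, g4⟩ := A0 F
    obtain ⟨g5, g6⟩ := cd_facts hcd.symm g1
    obtain ⟨j, hj⟩ : ∃ j : ZMod p, j = (d : ZMod p) / c := ⟨_, rfl⟩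
    rw [← hj] at g2 g3 g4 g6
    rw [hsg, (jp_odd_mul g2 _).1, (jp_odd_mul g2 _).2] at g3 g4
    rw [g6] at g4
    refine ⟨by rw [g3]; ring, ?_⟩
    rw [← mul_div_assoc, eq_div_iff hx0]
    apply mul_left_cancel₀ h20
    push_cast at g4
    linear_combination g4 - 2 * y * (-1) ^ ((a - 1) / 2 + d / 4) * g2
  have A3 : y % 4 = 0 → ((LV b (p / 4) : ℤ) : ZMod p) = 2 * (-1) ^ (d / 4 + y / 4) ∧
      ((LU b (p / 4) : ℤ) : ZMod p) = 0 := by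
    intro h
    have F : L ⟨c, d⟩ (((a * y : ℤ) : ZI) + (x : ZI) * im1) = L ⟨c, d⟩ ((1 : ℤ) : ZI) +
        L ⟨c, d⟩ (y : ZI) + 2 * (((d / 4 + y / 4 : ℤ)) : ZMod 4) := by
      rcases ha4 with h4 | h4
      · exact chi_od1_y4 hpp h2 h4 hc hd4 hx4 h hcd.symm hxy.symm hpb.symm
      · exact chi_od3_y4 hpp h2 h4 hc hd4 hx4 h hcd.symm hxy.symm hpb.symm
    obtain ⟨g1, g2, g3, g4⟩ := A0 F
    rw [neg_two_mul, jp_two_mul g2, hsg] at g3 g4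
    refine ⟨by rw [g3]; ring, ?_⟩
    have e5 : (2 * x : ZMod p) ≠ 0 := mul_ne_zero h20 hx0
    apply mul_left_cancel₀ e5
    rw [g4]
    ring
  exact ⟨hx0, by omega, by omega, fun h => (A1 h).2, fun h => (A3 (by omega)).2,
    fun h => (A1 h).1, fun h => (A3 (by omega)).1⟩

end Pool.Agent.Results.MP_f2f5f5_nt.LucasQuarterTwo
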